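import Pool.Agent.H97.SHL.Targets

/-! (HOE) a sum of independent centred variables: Hoeffding's inequality by counting. -/

set_option autoImplicit false

namespace Pool.Agent.H64.SHL

open Finset

theorem factor_le (q : ℕ) (v : Fin q) (t : ℝ) :
    ∑ u : Fin q, Real.exp (((if u = v then (1 : ℝ) else 0) - 1 / q) * t) ≤
      q * Real.exp (t ^ 2 / 2) := by
  have hq : (0 : ℝ) < q := by
    have : 0 < q := lt_of_le_of_lt (Nat.zero_le _) v.isLt
    exact_mod_cast this
  have hq1 : (1 : ℝ) ≤ q := by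
    have : 0 < q := lt_of_le_of_lt (Nat.zero_le _) v.isLt
    exact_mod_cast this
  have h1 : ∀ u : Fin q, |(if u = v then (1 : ℝ) else 0) - 1 / q| ≤ 1 := by
    intro u
    have h2 : (0 : ℝ) ≤ 1 / q := by positivity
    have h3 : (1 : ℝ) / q ≤ 1 := by
      rw [div_le_one hq]
      exact hq1
    split_ifs
    · rw [abs_le]
      constructor <;> linarith
    · rw [abs_le]
      constructor <;> linarith
  have h4 : ∑ u : Fin q, ((if u = v then (1 : ℝ) else 0) - 1 / q) = 0 := by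
    rw [Finset.sum_sub_distrib]
    simp
    field_simp
    simp
  calc ∑ u : Fin q, Real.exp (((if u = v then (1 : ℝ) else 0) - 1 / q) * t)
      ≤ ∑ u : Fin q, (Real.cosh t + ((if u = v then (1 : ℝ) else 0) - 1 / q) * Real.sinh t) :=
        Finset.sum_le_sum fun u _ => Real.exp_mul_le_cosh_add_mul_sinh (h1 u) t
    _ = q * Real.cosh t := by
        rw [Finset.sum_add_distrib, ← Finset.sum_mul, h4]
        simp
    _ ≤ q * Real.exp (t ^ 2 / 2) :=
        mul_le_mul_of_nonneg_left (Real.cosh_le_exp_half_sq t) hq.le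

theorem sum_exp_le (B q : ℕ) (ψ : Fin B → ℝ) (v : Fin q) (lam : ℝ) :
    ∑ g : Fin B → Fin q,
      Real.exp (lam * ∑ γ, ((if g γ = v then (1 : ℝ) else 0) - 1 / q) * ψ γ) ≤
      (q : ℝ) ^ B * Real.exp (lam ^ 2 * (∑ γ, ψ γ ^ 2) / 2) := by
  have h1 : ∀ g : Fin B → Fin q,
      Real.exp (lam * ∑ γ, ((if g γ = v then (1 : ℝ) else 0) - 1 / q) * ψ γ) =
      ∏ γ, Real.exp (((if g γ = v then (1 : ℝ) else 0) - 1 / q) * (lam * ψ γ)) := by
    intro g
    rw [← Real.exp_sum, Finset.mul_sum]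
    congr 1
    exact Finset.sum_congr rfl fun γ _ => by ring
  calc ∑ g : Fin B → Fin q,
        Real.exp (lam * ∑ γ, ((if g γ = v then (1 : ℝ) else 0) - 1 / q) * ψ γ)
      = ∑ g : Fin B → Fin q,
          ∏ γ, Real.exp (((if g γ = v then (1 : ℝ) else 0) - 1 / q) * (lam * ψ γ)) :=
        Finset.sum_congr rfl fun g _ => h1 g
    _ = ∏ γ : Fin B, ∑ u : Fin q,
          Real.exp (((if u = v then (1 : ℝ) else 0) - 1 / q) * (lam * ψ γ)) := by
        rw [Finset.prod_univ_sum]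
        rw [Fintype.piFinset_univ]
    _ ≤ ∏ γ : Fin B, ((q : ℝ) * Real.exp ((lam * ψ γ) ^ 2 / 2)) :=
        Finset.prod_le_prod (fun γ _ => Finset.sum_nonneg fun u _ => (Real.exp_pos _).le)
          fun γ _ => factor_le q v (lam * ψ γ)
    _ = (q : ℝ) ^ B * Real.exp (lam ^ 2 * (∑ γ, ψ γ ^ 2) / 2) := by
        rw [Finset.prod_mul_distrib, ← Real.exp_sum]
        congr 1
        · simp
        · congr 1
          rw [Finset.mul_sum, Finset.sum_div]
          exact Finset.sum_congr rfl fun γ _ => by ring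

open Classical in
theorem one_side (B q : ℕ) (ψ : Fin B → ℝ) (v : Fin q) (Λ : ℝ) (hΛ : 0 ≤ Λ)
    (hV : 0 < ∑ γ, ψ γ ^ 2) (s : ℝ) (hs : s ^ 2 = 1) :
    ((univ.filter fun g : Fin B → Fin q => Real.sqrt (Λ * ∑ γ, ψ γ ^ 2) <
      s * ∑ γ, ((if g γ = v then (1 : ℝ) else 0) - 1 / q) * ψ γ).card : ℝ) ≤
      Real.exp (-(Λ / 2)) * (q : ℝ) ^ B := by
  set V := ∑ γ, ψ γ ^ 2 with hVd
  set S : (Fin B → Fin q) → ℝ := fun g =>
    ∑ γ, ((if g γ = v then (1 : ℝ) else 0) - 1 / q) * ψ γ with hS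
  have hlV : Real.sqrt (Λ / V) * Real.sqrt (Λ * V) = Λ := by
    rw [← Real.sqrt_mul (by positivity)]
    have : Λ / V * (Λ * V) = Λ ^ 2 := by
      field_simp
    rw [this, Real.sqrt_sq hΛ]
  have hl2 : Real.sqrt (Λ / V) ^ 2 = Λ / V := Real.sq_sqrt (by positivity)
  have h1 := sum_exp_le B q ψ v (s * Real.sqrt (Λ / V))
  have h2 : (s * Real.sqrt (Λ / V)) ^ 2 * V / 2 = Λ / 2 := by
    rw [mul_pow, hs, hl2]
    field_simp
  rw [← hVd, h2] at h1
  have h3 : ((univ.filter fun g : Fin B → Fin q => Real.sqrt (Λ * V) < s * S g).card : ℝ) *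
      Real.exp Λ ≤ ∑ g : Fin B → Fin q, Real.exp (s * Real.sqrt (Λ / V) * S g) := by
    calc ((univ.filter fun g : Fin B → Fin q => Real.sqrt (Λ * V) < s * S g).card : ℝ) *
          Real.exp Λ
        = ∑ g ∈ univ.filter (fun g : Fin B → Fin q => Real.sqrt (Λ * V) < s * S g),
            Real.exp Λ := by
          rw [Finset.sum_const, nsmul_eq_mul]
      _ ≤ ∑ g ∈ univ.filter (fun g : Fin B → Fin q => Real.sqrt (Λ * V) < s * S g),
            Real.exp (s * Real.sqrt (Λ / V) * S g) := by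
          refine Finset.sum_le_sum fun g hg => Real.exp_le_exp.2 ?_
          have hg' := (Finset.mem_filter.1 hg).2
          calc Λ = Real.sqrt (Λ / V) * Real.sqrt (Λ * V) := hlV.symm
            _ ≤ Real.sqrt (Λ / V) * (s * S g) :=
                mul_le_mul_of_nonneg_left hg'.le (Real.sqrt_nonneg _)
            _ = s * Real.sqrt (Λ / V) * S g := by ring
      _ ≤ ∑ g : Fin B → Fin q, Real.exp (s * Real.sqrt (Λ / V) * S g) :=
          Finset.sum_le_sum_of_subset_of_nonneg (Finset.filter_subset _ _)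
            fun g _ _ => (Real.exp_pos _).le
  have h4 : ((univ.filter fun g : Fin B → Fin q => Real.sqrt (Λ * V) < s * S g).card : ℝ) *
      Real.exp Λ ≤ (q : ℝ) ^ B * Real.exp (Λ / 2) := h3.trans h1
  have h5 : Real.exp (-(Λ / 2)) * (q : ℝ) ^ B * Real.exp Λ = (q : ℝ) ^ B * Real.exp (Λ / 2) := by
    have : Real.exp (-(Λ / 2)) * Real.exp Λ = Real.exp (Λ / 2) := by
      rw [← Real.exp_add]
      congr 1
      ring
    rw [mul_right_comm, this, mul_comm]
  rw [← h5] at h4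
  exact le_of_mul_le_mul_right h4 (Real.exp_pos _)

open Classical in
theorem pf_HOE : Pool.Agent.H97.SHL.T_HOE := by
  intro B q ψ v Λ hΛ
  rcases eq_or_lt_of_le (Finset.sum_nonneg fun γ (_ : γ ∈ (univ : Finset (Fin B))) =>
    sq_nonneg (ψ γ)) with hV | hV
  · have h0 : ∀ γ, ψ γ = 0 := by
      intro γ
      have := (Finset.sum_eq_zero_iff_of_nonneg (fun γ _ => sq_nonneg (ψ γ))).1 hV.symm γ
        (Finset.mem_univ γ)
      exact pow_eq_zero_iff (two_ne_zero) |>.1 this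
    have : (univ.filter fun g : Fin B → Fin q => Λ * ∑ γ, ψ γ ^ 2 <
      (∑ γ, ((if g γ = v then (1 : ℝ) else 0) - 1 / q) * ψ γ) ^ 2) = ∅ := by
      refine Finset.filter_eq_empty_iff.2 fun g _ => ?_
      simp [h0]
    rw [this]
    simp only [Finset.card_empty, Nat.cast_zero]
    positivity
  · have hsub : (univ.filter fun g : Fin B → Fin q => Λ * ∑ γ, ψ γ ^ 2 <
      (∑ γ, ((if g γ = v then (1 : ℝ) else 0) - 1 / q) * ψ γ) ^ 2) ⊆
      (univ.filter fun g : Fin B → Fin q => Real.sqrt (Λ * ∑ γ, ψ γ ^ 2) <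
        1 * ∑ γ, ((if g γ = v then (1 : ℝ) else 0) - 1 / q) * ψ γ) ∪
      (univ.filter fun g : Fin B → Fin q => Real.sqrt (Λ * ∑ γ, ψ γ ^ 2) <
        (-1) * ∑ γ, ((if g γ = v then (1 : ℝ) else 0) - 1 / q) * ψ γ) := by
      intro g hg
      have hg' := (Finset.mem_filter.1 hg).2
      have h1 := Real.sqrt_lt_sqrt (by positivity) hg'
      rw [Real.sqrt_sq_eq_abs] at h1
      rcases abs_cases (∑ γ, ((if g γ = v then (1 : ℝ) else 0) - 1 / q) * ψ γ) with
        ⟨h2, _⟩ | ⟨h2, _⟩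
      · refine Finset.mem_union_left _ (Finset.mem_filter.2 ⟨Finset.mem_univ _, ?_⟩)
        rw [h2] at h1
        rw [one_mul]
        exact h1
      · refine Finset.mem_union_right _ (Finset.mem_filter.2 ⟨Finset.mem_univ _, ?_⟩)
        rw [h2] at h1
        rw [neg_one_mul]
        exact h1
    have hcard := (Finset.card_le_card hsub).trans (Finset.card_union_le _ _)
    have hc : ((univ.filter fun g : Fin B → Fin q => Λ * ∑ γ, ψ γ ^ 2 <
      (∑ γ, ((if g γ = v then (1 : ℝ) else 0) - 1 / q) * ψ γ) ^ 2).card : ℝ) ≤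
      ((univ.filter fun g : Fin B → Fin q => Real.sqrt (Λ * ∑ γ, ψ γ ^ 2) <
        1 * ∑ γ, ((if g γ = v then (1 : ℝ) else 0) - 1 / q) * ψ γ).card : ℝ) +
      ((univ.filter fun g : Fin B → Fin q => Real.sqrt (Λ * ∑ γ, ψ γ ^ 2) <
        (-1) * ∑ γ, ((if g γ = v then (1 : ℝ) else 0) - 1 / q) * ψ γ).card : ℝ) := by
      exact_mod_cast hcard
    have h1 := one_side B q ψ v Λ hΛ hV 1 (by norm_num)
    have h2 := one_side B q ψ v Λ hΛ hV (-1) (by norm_num)
    linarith

end Pool.Agent.H64.SHL
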